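import Mathlib

set_option autoImplicit false

namespace Pool.Agent.Results.MP_81fdd0_co.Overlap
open FreeGroup

/-- `w` properly overlaps `w'` (as reduced words) -/
def PO {r : ℕ} (w w' : FreeGroup (Fin r)) : Prop :=
  ∃ x : List (Fin r × Bool), x ≠ [] ∧ x <:+ w.toWord ∧ x <+: w'.toWord ∧
    x.length < w.toWord.length ∧ x.length < w'.toWord.length

/-- non-self-overlapping -/
def NSO {r : ℕ} (w : FreeGroup (Fin r)) : Prop :=
  w ≠ 1 ∧ ¬ ∃ x : List (Fin r × Bool), x ≠ [] ∧ x <+: w.toWord ∧ x <:+ w.toWord ∧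
    x.length < w.toWord.length

/-- underlying undirected graph of `OG(V)` -/
def OG {r : ℕ} (V : Set (FreeGroup (Fin r))) : SimpleGraph V :=
  SimpleGraph.fromRel (fun w w' => PO w.1 w'.1)

/-- the quotient graph on the pairs `{w, w⁻¹}` -/
def OGbar {r : ℕ} (V : Set (FreeGroup (Fin r))) :
    SimpleGraph {P : Set (FreeGroup (Fin r)) // ∃ w ∈ V, P = {w, w⁻¹}} :=
  SimpleGraph.fromRel (fun P Q => ∃ w ∈ P.1, ∃ w' ∈ Q.1, PO w w')

theorem pre_inv {α : Type} {x s : List (α × Bool)} (h : x <+: s) : invRev x <:+ invRev s := by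
  obtain ⟨t, rfl⟩ := h
  rw [invRev_append]
  exact List.suffix_append _ _

theorem suf_inv {α : Type} {x s : List (α × Bool)} (h : x <:+ s) : invRev x <+: invRev s := by
  obtain ⟨t, rfl⟩ := h
  rw [invRev_append]
  exact List.prefix_append _ _

theorem PO_inv {r : ℕ} {w w' : FreeGroup (Fin r)} (h : PO w w') : PO w'⁻¹ w⁻¹ := by
  obtain ⟨x, h1, h2, h3, h4, h5⟩ := h
  refine ⟨invRev x, ?_, ?_, ?_, ?_, ?_⟩
  · intro e
    apply h1
    rw [← invRev_invRev (L₁ := x), e]
    rfl
  · rw [toWord_inv]; exact pre_inv h3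
  · rw [toWord_inv]; exact suf_inv h2
  · rw [toWord_inv, invRev_length, invRev_length]; exact h5
  · rw [toWord_inv, invRev_length, invRev_length]; exact h4

def P (w : FreeGroup (Fin 3)) : Prop :=
  ∃ s : List (Fin 3 × Bool), (∀ x ∈ s, x.1 ≠ 2) ∧ w.toWord = s ++ [(2, true)]

theorem noPO {w w' : FreeGroup (Fin 3)} (h : P w) (h' : P w') : ¬ PO w w' := by
  obtain ⟨s, -, e⟩ := h
  obtain ⟨s', hs', e'⟩ := h'
  rintro ⟨x, h1, h2, h3, -, h5⟩
  rw [e] at h2
  rw [e'] at h3 h5
  have h6 : x <+: s' :=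
    List.prefix_of_prefix_length_le h3 (List.prefix_append _ _) (by simp at h5; omega)
  have h7 : [((2 : Fin 3), true)] <:+ x :=
    List.suffix_of_suffix_length_le (List.suffix_append _ _) h2
      (by simpa [Nat.one_le_iff_ne_zero] using h1)
  exact hs' _ (h6.subset (h7.subset (List.mem_singleton.2 rfl))) rfl

def Good (s : List (Fin 3 × Bool)) : Prop :=
  IsReduced s ∧ (∀ x ∈ s, x.1 ≠ 2) ∧ s ≠ [] ∧ (∀ x ∈ s.head?, x.1 = 0) ∧ ∀ x ∈ s.getLast?, x.1 = 0

theorem good_inv {s : List (Fin 3 × Bool)} (h : Good s) : Good (invRev s) := by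
  obtain ⟨h1, h2, h3, h4, h5⟩ := h
  refine ⟨?_, ?_, ?_, ?_, ?_⟩
  · have : invRev s = (mk s)⁻¹.toWord := by rw [toWord_inv, toWord_mk, h1.reduce_eq]
    rw [this]
    exact isReduced_toWord
  · intro x hx
    simp only [invRev, List.mem_reverse, List.mem_map] at hx
    obtain ⟨y, hy, rfl⟩ := hx
    exact h2 y hy
  · simpa [invRev] using h3
  · intro x hx
    simp only [invRev, List.head?_reverse, List.getLast?_map, Option.mem_def,
      Option.map_eq_some_iff] at hx
    obtain ⟨y, hy, rfl⟩ := hx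
    exact h5 y hy
  · intro x hx
    simp only [invRev, List.getLast?_reverse, List.head?_map, Option.mem_def,
      Option.map_eq_some_iff] at hx
    obtain ⟨y, hy, rfl⟩ := hx
    exact h4 y hy

theorem good_app {s t : List (Fin 3 × Bool)} (h : Good s) (h' : Good t) :
    Good (s ++ ([(1, true)] ++ t)) := by
  obtain ⟨h1, h2, h3, h4, h5⟩ := h
  obtain ⟨g1, g2, g3, g4, g5⟩ := h'
  refine ⟨?_, ?_, by simp, ?_, ?_⟩
  · unfold FreeGroup.IsReduced at *
    rw [List.isChain_append, List.isChain_append]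
    refine ⟨h1, ⟨List.isChain_singleton _, g1, ?_⟩, ?_⟩
    · intro x hx y hy e
      have := g4 y hy
      simp at hx
      rw [← hx, this] at e
      simp at e
    · intro x hx y hy e
      have := h5 x hx
      simp at hy
      rw [← hy, this] at e
      simp at e
  · intro x hx
    simp only [List.mem_append, List.mem_singleton] at hx
    rcases hx with hx | rfl | hx
    · exact h2 x hx
    · simp
    · exact g2 x hx
  · intro x hx
    rw [List.head?_append_of_ne_nil _ h3] at hx
    exact h4 x hx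
  · intro x hx
    rw [← List.append_assoc, List.getLast?_append_of_ne_nil _ g3] at hx
    exact g5 x hx

theorem build : ∀ L : List (ℕ × ℕ), ∃ s : ℕ → List (Fin 3 × Bool), (∀ k, Good (s k)) ∧
    ∀ p ∈ L, p.1 ≠ p.2 → ∃ x, x ≠ [] ∧ x <+: s p.1 ∧ invRev x <+: s p.2 := by
  intro L
  induction L with
  | nil =>
    exact ⟨fun _ => [(0, true)], fun _ => ⟨IsReduced.singleton, by simp, by simp, by simp, by simp⟩,
      by simp⟩
  | cons q L ih =>
    obtain ⟨s, hs, h⟩ := ih
    obtain ⟨i, j⟩ := q
    have hy := good_app (hs i) (good_inv (hs j))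
    set y := s i ++ ([(1, true)] ++ invRev (s j)) with hyd
    let s' : ℕ → List (Fin 3 × Bool) := fun k => if k = i then y else if k = j then invRev y else s k
    have hp : ∀ k, s k <+: s' k := by
      intro k
      simp only [s']
      split_ifs with h1 h2
      · rw [h1]; exact List.prefix_append _ _
      · rw [h2, hyd, ← List.append_assoc, invRev_append, invRev_invRev]
        exact List.prefix_append _ _
      · exact List.prefix_rfl
    refine ⟨s', ?_, ?_⟩
    · intro k
      simp only [s']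
      split_ifs
      · exact hy
      · exact good_inv hy
      · exact hs k
    · intro p hp' hne
      rcases List.mem_cons.1 hp' with rfl | hp'
      · refine ⟨y, hy.2.2.1, ?_, ?_⟩
        · simp [s']
        · simp [s', Ne.symm hne]
      · obtain ⟨x, h1, h2, h3⟩ := h p hp' hne
        exact ⟨x, h1, h2.trans (hp _), h3.trans (hp _)⟩

theorem word {s : List (Fin 3 × Bool)} (h : Good s) :
    (mk (s ++ [(2, true)])).toWord = s ++ [(2, true)] := by
  rw [toWord_mk]
  apply IsReduced.reduce_eq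
  unfold FreeGroup.IsReduced
  rw [List.isChain_append]
  refine ⟨h.1, List.isChain_singleton _, ?_⟩
  intro x hx y hy e
  have := h.2.2.2.2 x hx
  simp at hy
  rw [← hy, this] at e
  simp at e

theorem notself {s x : List (Fin 3 × Bool)} (h : Good s) (h1 : x ≠ []) (h2 : x <+: s)
    (h3 : invRev x <+: s) : False := by
  have e : invRev x = x :=
    (List.prefix_of_prefix_length_le h3 h2 (by simp)).eq_of_length (by simp)
  have hr : FreeGroup.IsReduced x := by
    obtain ⟨t, rfl⟩ := h2
    exact (List.isChain_append.1 h.1).1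
  have e2 : (mk x) ^ 2 = 1 := by
    rw [pow_two, mul_eq_one_iff_eq_inv, inv_mk, e]
  have e3 : mk x = 1 := (pow_eq_one_iff_left (by norm_num)).1 e2
  have := congrArg toWord e3
  rw [toWord_mk, hr.reduce_eq, toWord_one] at this
  exact h1 this

theorem result : ∃ (r : ℕ) (V : Set (FreeGroup (Fin r))), 2 ≤ r ∧ (∀ w ∈ V, w⁻¹ ∈ V) ∧
    (∀ w ∈ V, NSO w) ∧ (OG V).CliqueFree 3 ∧ ∀ n, ¬ (OGbar V).CliqueFree n := by
  classical
  refine ⟨3, {w | P w ∨ P w⁻¹}, by norm_num, ?_, ?_, ?_, ?_⟩
  · intro w hw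
    simpa [or_comm] using hw
  · intro w hw
    constructor
    · rintro rfl
      rcases hw with ⟨s, -, e⟩ | ⟨s, -, e⟩ <;> simp at e
    · rintro ⟨x, h1, h2, h3, h4⟩
      have h5 : PO w w := ⟨x, h1, h3, h2, h4, h4⟩
      rcases hw with hw | hw
      · exact noPO hw hw h5
      · exact noPO hw hw (PO_inv h5)
  · apply SimpleGraph.Colorable.cliqueFree (n := 2) _ (by norm_num)
    refine ⟨SimpleGraph.Coloring.mk (fun w => if P w.1 then 0 else 1) ?_⟩
    intro w w' h
    have h2 := ((SimpleGraph.fromRel_adj _ _ _).1 h).2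
    by_cases a : P w.1 <;> by_cases b : P w'.1
    · exact absurd h2 (not_or.2 ⟨noPO a b, noPO b a⟩)
    · simp [a, b]
    · simp [a, b]
    · have a' := w.2.resolve_left a
      have b' := w'.2.resolve_left b
      exact absurd h2 (not_or.2 ⟨fun c => noPO b' a' (PO_inv c), fun c => noPO a' b' (PO_inv c)⟩)
  · intro n
    obtain ⟨s, hs, h⟩ := build ((List.range n) ×ˢ (List.range n))
    let w : ℕ → FreeGroup (Fin 3) := fun i => mk (s i ++ [(2, true)])
    have hw : ∀ i, (w i).toWord = s i ++ [(2, true)] := fun i => word (hs i)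
    have hP : ∀ i, P (w i) := fun i => ⟨s i, (hs i).2.1, hw i⟩
    let f : Fin n → {Q : Set (FreeGroup (Fin 3)) // ∃ w ∈ {w | P w ∨ P w⁻¹}, Q = {w, w⁻¹}} :=
      fun i => ⟨{w i, (w i)⁻¹}, w i, Or.inl (hP i), rfl⟩
    have adj : ∀ i j : Fin n, i ≠ j → (OGbar _).Adj (f i) (f j) := by
      intro i j hij
      obtain ⟨x, h1, h2, h3⟩ := h (i, j) (by simp) (fun e => hij (Fin.ext e))
      have hpo : PO (w j)⁻¹ (w i) := by
        refine ⟨x, h1, ?_, ?_, ?_, ?_⟩
        · rw [toWord_inv, hw, ← invRev_invRev (L₁ := x)]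
          exact pre_inv (h3.trans (List.prefix_append _ _))
        · rw [hw]; exact h2.trans (List.prefix_append _ _)
        · have := h3.length_le
          rw [toWord_inv, hw, invRev_length] at *
          simp; omega
        · have := h2.length_le
          rw [hw]; simp; omega
      refine (SimpleGraph.fromRel_adj _ _ _).2 ⟨?_, Or.inr ⟨(w j)⁻¹, by simp [f], w i, by simp [f], hpo⟩⟩
      intro e
      have e2 : w i ∈ ({w j, (w j)⁻¹} : Set (FreeGroup (Fin 3))) := by
        have := congrArg Subtype.val e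
        simp only [f] at this
        rw [← this]; simp
      rcases e2 with e2 | e2
      · have e3 : s i = s j := by
          have := congrArg toWord e2
          rw [hw, hw] at this
          exact List.append_cancel_right this
        exact notself (hs j) h1 (e3 ▸ h2) h3
      · have e3 : w i = (w j)⁻¹ := e2
        rw [← e3] at hpo
        exact noPO (hP i) (hP i) hpo
    apply SimpleGraph.IsContained.not_cliqueFree
    refine ⟨⟨f, fun {i j} a => adj i j a⟩, fun i j e => ?_⟩
    by_contra hne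
    exact (adj i j hne).ne e

end Pool.Agent.Results.MP_81fdd0_co.Overlap
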